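import Pool.Agent.Results.MP_0d42ed_ag.TwoCoversEveryPrime
import Pool.Agent.Run7.h870.TF.Cov

/-!
# The Tate conjecture at every prime number for all the double covers branched at the roots of a random
polynomial, over number fields

Let `K` be a number field, `n ≥ 3`, and `f = X ^ n + y (n - 1) X ^ (n - 1) + ... + y 0` a polynomial with
coefficients in the ring of integers of `K`. Let `L` be a finite extension of `K` and `L' = L(α 0, ..., α (n - 1))` the
field generated over `L` by the roots of `f`. Over `L'` there are the double covers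
`C_S : Y ^ 2 = ∏ i ∈ S, (X - α i)` of the projective line, one for each set `S` of at least three roots of `f`
(`2 ^ n - 1 - n - n (n - 1) / 2` curves, of the genera `1, ..., (n - 1) / 2`; they are permuted by the Galois group
of `f`). Let `A` be the product of the Jacobians of ALL the `C_S`. (Over `L`, `A` with its Galois conjugates gives
the Weil restrictions of these Jacobians; they are the abelian varieties which belong to the factors of
`f`. The whole polynomial, `S` = all roots, gives the hyperelliptic curve `Y ^ 2 = f(X)`.)

Let `Z` be any pure motive over `L`, for instance `H ^ w` of any smooth projective variety over `L`. We use only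
the characteristic polynomials of its geometric Frobenius elements outside of a finite set of places, their
purity, and ONE lattice `τ` over `ℤ_2`. The predicate `EveryPrime` (from `MP_640417_ag/HyperellipticEveryPrime`)
means here, over `L'`: for EVERY prime number `ℓ` all Tate classes on all powers of `A` with values in the
`ℓ`-adic realization of `Z(c)` are zero in odd degrees, and in even degrees they are linear combinations of
products of Tate classes of degree two on the powers of `A` and Tate classes of `Z`. The Tate classes of
degree two on abelian varieties are algebraic (Faltings). So for each `ℓ` the Tate conjecture at `ℓ` for all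
`(∏ J_S ^ m_S) × Z` over `L'` is EQUIVALENT to the Tate conjecture for `Z` over `L'` at `ℓ`; in particular it holds for
all `∏ J_S ^ m_S`.

`OverRoots y τ` means: this is true over every number field `L'` which is generated over `L` by the roots of
the polynomial `f` with the coefficients `y`, for every choice of the embedding of the absolute Galois groups.

**Theorem.** (1) For each finite extension `L` of `K` and each `Z` over `L` with a lattice `τ`, `OverRoots y τ` is true
for 100% of the polynomials: the proportion tends to one in all sequences of finite sets of tuples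
of coefficients which are equidistributed modulo all nonzero ideals, for instance boxes.

The other parts are uniform in `L`, `Z` and `ℓ`. Let `Ω` be a finite extension of `K` in an algebraic closure.
`f` is called good for `Ω` if `OverRoots y τ` is true for ALL finite extensions `L` of `K` and ALL motives `Z` over `L`
with a lattice `τ` such that `L(ζ_8, τ mod 4)` is contained in `Ω` (`Covers`).

(2) Each `(L, τ)` is covered by some finite extension `Ω` of `K`.

(3) (Congruences.) For all `Ω` and `η > 0` there is a nonzero ideal `M` such that for a proportion of at least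
`1 - η` of the residue classes modulo `M` of the coefficients, ALL polynomials in the class are good for `Ω`.

(4) (One exceptional set.) For equidistributed sets as in (1) there are finite extensions `Ω 0`, `Ω 1`, ... such
that each algebraic number is in `Ω t` for all large `t`, and the proportion of the polynomials in `B t`
which are good for `Ω t` tends to one.

There is no hypothesis on reductions, monodromy, Frobenius elements or on `Z`. Up to now: the whole
polynomials over fields over which they do not split (`MP_640417_ag/HyperellipticEveryPrime`), and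
branch points in the ground field `K` (`MP_0d42ed_ag/TwoCoversEveryPrime`).

Proof. By the criterion of `TwoCoversEveryPrime` it is enough that no product of differences of the roots
becomes a square in `L'(ζ_8, τ mod 4)`. We sieve with the residue fields of degree one of `Ω` over `K`: for a
positive proportion of the residue classes modulo `w` the polynomial is irreducible modulo `w`, or
has a root and an irreducible factor of the other degrees, or has one irreducible factor of degree two and
otherwise different roots (so the Galois group over `Ω` is the symmetric group), and for a given product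
of differences, for a positive proportion the polynomial is a product of different linear factors
`X - a i` modulo `w` and this product of the differences of the `a i` is not a square. A Frobenius
element at such a place is trivial on the roots; a permutation of the roots, which exists in the Galois
group, brings them into the order of the `a i`, and so a conjugate of the Frobenius element moves the
square root of the product.
-/

set_option autoImplicit false

namespace Pool.Agent.Results.MP_938ce2_ag.CoversOfTheRoots

open Polynomial Filter Topology NumberField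
open Pool.Agent.Results.MP_640417_ag.HyperellipticEveryPrime (AbsoluteGaloisGroup EveryPrime
  IsLattice InClass Equidistributed AlmostAll)
open Pool.Agent.Results.MP_0d42ed_ag.TwoCoversEveryPrime (curve)
open scoped Classical

/-- The monic polynomial `X ^ n + ∑ j < n, y j X ^ j`. -/
noncomputable def poly {K : Type} [Field K] {n : ℕ} (y : Fin n → 𝓞 K) : K[X] :=
  X ^ n + ∑ j : Fin n, C (algebraMap (𝓞 K) K (y j)) * X ^ (j : ℕ)

/-- The restriction of the automorphisms of an algebraic closure of `L'` over `L'` to an algebraic closure
of `L`, by an isomorphism `e` of the algebraic closures over `L`. -/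
noncomputable def restrict {L L' : Type} [Field L] [Field L'] [Algebra L L']
    (e : AlgebraicClosure L' ≃ₐ[L] AlgebraicClosure L) :
    AbsoluteGaloisGroup L' →* AbsoluteGaloisGroup L where
  toFun s := e.symm.trans ((s.restrictScalars L).trans e)
  map_one' := AlgEquiv.ext fun x => e.apply_symm_apply x
  map_mul' s t := AlgEquiv.ext fun x => by
    show e ((s * t) (e.symm x)) = e (s (e.symm (e (t (e.symm x)))))
    rw [e.symm_apply_apply]
    rfl

/-- For all number fields `L'` which are generated over `L` by the roots `α i` of the polynomial: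
`EveryPrime` for all the double covers of the line branched at subsets of the roots, over `L'`. -/
def OverRoots {K L : Type} [Field K] [Field L] [NumberField L] [Algebra K L] {n : ℕ}
    (y : Fin n → 𝓞 K) {d : ℕ} (τ : AbsoluteGaloisGroup L →* Matrix (Fin d) (Fin d) ℚ_[2]) : Prop :=
  ∀ (L' : Type) [Field L'] [NumberField L'] [Algebra L L']
    (e : AlgebraicClosure L' ≃ₐ[L] AlgebraicClosure L) (α : Fin n → L'),
    ((poly y).map (algebraMap K L)).map (algebraMap L L') = ∏ i, (X - C (α i)) →
    Algebra.adjoin L (Set.range α) = ⊤ → EveryPrime (curve α) (τ.comp (restrict e))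

/-- `L(ζ_8, τ mod 4)` is contained in `Ω`: for an embedding `ε` of the algebraic closures, `L` is contained in
the image of `Ω`, and the automorphisms which fix this image fix the eighth roots of unity and act
trivially on the lattice modulo four. -/
def Covers {K L : Type} [Field K] [Field L] [Algebra K L]
    (Ω : IntermediateField K (AlgebraicClosure K)) {d : ℕ}
    (τ : AbsoluteGaloisGroup L →* Matrix (Fin d) (Fin d) ℚ_[2]) : Prop :=
  ∃ ε : AlgebraicClosure K →ₐ[K] AlgebraicClosure L,
    (∀ x : L, ∃ z ∈ Ω, ε z = algebraMap L (AlgebraicClosure L) x) ∧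
    ∀ s : AbsoluteGaloisGroup L, (∀ z ∈ Ω, s (ε z) = ε z) →
      (∀ ζ : AlgebraicClosure L, ζ ^ 8 = 1 → s ζ = ζ) ∧ ∀ a b, ‖(τ s - 1) a b‖ ≤ 1 / 4

/-- The good polynomials. -/
def Good {K : Type} [Field K] (Ω : IntermediateField K (AlgebraicClosure K)) {n : ℕ}
    (y : Fin n → 𝓞 K) : Prop :=
  ∀ (L : Type) [Field L] [NumberField L] [Algebra K L] (d : ℕ)
    (τ : AbsoluteGaloisGroup L →* Matrix (Fin d) (Fin d) ℚ_[2]), IsLattice τ → Covers Ω τ →
      OverRoots y τ

theorem poly_map {K L L' : Type} [Field K] [Field L] [Field L'] [Algebra K L] [Algebra L L'] {n : ℕ}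
    (y : Fin n → 𝓞 K) : ((poly y).map (algebraMap K L)).map (algebraMap L L') =
      Pool.Agent.N197.Htj.mP fun j => algebraMap L L' (algebraMap K L (algebraMap (𝓞 K) K (y j))) := by
  have h : poly y = Pool.Agent.N197.Htj.mP fun j => algebraMap (𝓞 K) K (y j) := by
    rw [Pool.Agent.N197.Htj.mP_eq]
    rfl
  rw [h, Pool.Agent.N197.Htj.mP_map, Pool.Agent.N197.Htj.mP_map]

theorem restrict_eq {L L' : Type} [Field L] [Field L'] [Algebra L L']
    (e : AlgebraicClosure L' ≃ₐ[L] AlgebraicClosure L) : restrict e = Run7.h870.TF.rs e := rfl

theorem good_of_reg {K : Type} [Field K] [NumberField K]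
    {Ω : IntermediateField K (AlgebraicClosure K)} [FiniteDimensional K Ω] [NumberField Ω] {n : ℕ}
    (hn : 3 ≤ n) {y : Fin n → 𝓞 K} (hy : Run7.h870.TF.Reg K Ω y) : Good Ω y := by
  intro L _ _ _ d τ hτ hcov L' _ _ _ e α hα hadj
  obtain ⟨ε, hL, hs⟩ := hcov
  rw [poly_map] at hα
  letI : Algebra Ω (AlgebraicClosure L) := (ε.comp Ω.val).toRingHom.toAlgebra
  haveI : IsScalarTower K Ω (AlgebraicClosure L) := IsScalarTower.of_algebraMap_eq fun x =>
    ((ε.comp Ω.val).commutes x).symm
  obtain ⟨hinj, hmove⟩ := Run7.h870.TF.core (K := K) (L := L) (Ω := Ω) (F := AlgebraicClosure L)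
    (fun x => by
      obtain ⟨z, hz, h⟩ := hL x
      exact ⟨⟨z, hz⟩, h⟩) hn hy e hadj hα
  have hlat : IsLattice (τ.comp (restrict e)) := by
    refine ⟨?_, fun s a b => hτ.2 _ a b⟩
    have h1 : Continuous (restrict e) := Run7.h870.TF.rs_cont e
    exact hτ.1.comp h1
  refine Pool.Agent.Results.MP_0d42ed_ag.TwoCoversEveryPrime.criterion hn α hinj _ hlat
    fun P hP hcon => ?_
  obtain ⟨δ, hδ⟩ := IsAlgClosed.exists_pow_nat_eq
    (algebraMap L' (AlgebraicClosure L') (∏ p ∈ P, (α p.1.1 - α p.1.2))) two_pos
  obtain ⟨s', hfix, hmv⟩ := hmove P hP δ hδ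
  apply hmv
  obtain ⟨h8, h4⟩ := hs (restrict e s') (fun z hz => hfix ⟨z, hz⟩)
  refine hcon δ hδ s' (fun ζ hζ => ?_) h4
  have h1 := h8 (e ζ) (by rw [← map_pow, hζ, map_one])
  have h2 : restrict e s' (e ζ) = e (s' ζ) := by
    show e (s' (e.symm (e ζ))) = e (s' ζ)
    rw [e.symm_apply_apply]
  rw [h2] at h1
  exact e.injective h1

theorem good_mono {K : Type} [Field K] {Ω Ω' : IntermediateField K (AlgebraicClosure K)}
    (h : Ω ≤ Ω') {n : ℕ} {y : Fin n → 𝓞 K} (hy : Good Ω' y) : Good Ω y := by
  intro L _ _ _ d τ hτ hcov
  obtain ⟨ε, hL, hs⟩ := hcov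
  refine hy L d τ hτ ⟨ε, fun x => ?_, fun s hs' => hs s fun z hz => hs' z (h hz)⟩
  obtain ⟨z, hz, hx⟩ := hL x
  exact ⟨z, h hz, hx⟩

theorem exists_covers (K : Type) [Field K] [NumberField K] (L : Type) [Field L] [NumberField L]
    [Algebra K L] {d : ℕ} (τ : AbsoluteGaloisGroup L →* Matrix (Fin d) (Fin d) ℚ_[2])
    (hτ : IsLattice τ) : ∃ Ω : IntermediateField K (AlgebraicClosure K),
      FiniteDimensional K Ω ∧ Covers Ω τ := by
  haveI : FiniteDimensional K L := Module.Finite.of_restrictScalars_finite ℚ K L
  have hA : {s : AbsoluteGaloisGroup L | ∀ a b, ‖(τ s - 1) a b‖ ≤ 1 / 4} ∈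
      nhds (1 : AbsoluteGaloisGroup L) := by
    have h1 : ∀ a b : Fin d, ∀ᶠ s in nhds (1 : AbsoluteGaloisGroup L),
        ‖(τ s - 1) a b‖ < 1 / 4 := by
      intro a b
      have h2 : Continuous fun s : AbsoluteGaloisGroup L => ‖(τ s - 1) a b‖ := by
        have h3 : Continuous fun s : AbsoluteGaloisGroup L => τ s - 1 := hτ.1.sub continuous_const
        exact (h3.matrix_elem a b).norm
      have h4 := h2.tendsto 1
      rw [map_one, sub_self, Matrix.zero_apply, norm_zero] at h4
      exact h4.eventually_lt_const (by norm_num)
    have h5 := eventually_all.2 fun a => eventually_all.2 fun b => h1 a b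
    filter_upwards [h5] with s hs a b
    exact (hs a b).le
  obtain ⟨Ω, ε, hΩ, hL, hs⟩ := Run7.h870.TF.exists_fin (K := K) (L := L)
    (F := AlgebraicClosure L) (Kb := AlgebraicClosure K) hA 8 (by norm_num)
  exact ⟨Ω, hΩ, ε, hL, hs⟩

theorem numberField_of {K : Type} [Field K] [NumberField K]
    (Ω : IntermediateField K (AlgebraicClosure K)) [FiniteDimensional K Ω] : NumberField Ω where
  to_charZero := charZero_of_injective_algebraMap (algebraMap K Ω).injective
  to_finiteDimensional := Module.Finite.trans K Ω

/-- the congruences -/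
theorem dens_good (K : Type) [Field K] [NumberField K] {n : ℕ} (hn : 3 ≤ n)
    (Ω : IntermediateField K (AlgebraicClosure K)) [FiniteDimensional K Ω] (η : ℝ) (hη : 0 < η) :
    ∃ M : Ideal (𝓞 K), Finite (𝓞 K ⧸ M) ∧
      (1 - η) * (Nat.card (𝓞 K ⧸ M) : ℝ) ^ (Fintype.card (Fin n)) ≤
      (({x : Fin n → 𝓞 K ⧸ M | ∀ y : Fin n → 𝓞 K, (∀ j, Ideal.Quotient.mk M (y j) = x j) →
        Good Ω y}).ncard : ℝ) := by
  haveI := numberField_of Ω
  obtain ⟨M, hM, h⟩ := Run7.h870.TF.dens_reg K Ω hn η hη
  refine ⟨M, hM, h.trans ?_⟩
  have := hM
  refine Nat.cast_le.2 (Set.ncard_le_ncard (fun x hx y hy => ?_) (Set.toFinite _))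
  exact good_of_reg hn (hx y hy)

/-- the proportion of the good polynomials in equidistributed sets -/
theorem tendsto_good (K : Type) [Field K] [NumberField K] {n : ℕ} (hn : 3 ≤ n)
    (Ω : IntermediateField K (AlgebraicClosure K)) [FiniteDimensional K Ω]
    (B : ℕ → Finset (Fin n → 𝓞 K)) (hB : Equidistributed B) :
    AlmostAll B fun _ y => Good Ω y := by
  have h := Pool.Agent.X243.Gen.tendsto_of_dens {y : Fin n → 𝓞 K | Good Ω y}
    (fun η hη => dens_good K hn Ω η hη) B hB.1 (fun M hM x => by
      have h1 := hB.2 M hM x
      unfold InClass at h1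
      convert h1)
  exact h

theorem countable_closure (K : Type) [Field K] [NumberField K] : Countable (AlgebraicClosure K) := by
  haveI : Countable K := by
    have h := Algebra.IsAlgebraic.cardinalMk_le_max ℚ K
    rw [Cardinal.mk_eq_aleph0 ℚ, max_self] at h
    exact Cardinal.mk_le_aleph0_iff.1 h
  have h := Algebra.IsAlgebraic.cardinalMk_le_max K (AlgebraicClosure K)
  rw [max_eq_right (Cardinal.mk_le_aleph0_iff.2 inferInstance)] at h
  exact Cardinal.mk_le_aleph0_iff.1 h

/-- **The Tate conjecture at every prime number for all the double covers branched at the roots of a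
random polynomial, over number fields.** -/
theorem result {n : ℕ} (hn : 3 ≤ n) (K : Type) [Field K] [NumberField K] :
    (∀ B : ℕ → Finset (Fin n → 𝓞 K), Equidistributed B →
      ∀ (L : Type) [Field L] [NumberField L] [Algebra K L] (d : ℕ)
        (τ : AbsoluteGaloisGroup L →* Matrix (Fin d) (Fin d) ℚ_[2]), IsLattice τ →
        AlmostAll B fun _ y => OverRoots y τ) ∧
    (∀ (L : Type) [Field L] [NumberField L] [Algebra K L] (d : ℕ)
      (τ : AbsoluteGaloisGroup L →* Matrix (Fin d) (Fin d) ℚ_[2]), IsLattice τ →
      ∃ Ω : IntermediateField K (AlgebraicClosure K), FiniteDimensional K Ω ∧ Covers Ω τ) ∧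
    (∀ Ω : IntermediateField K (AlgebraicClosure K), FiniteDimensional K Ω → ∀ η : ℝ, 0 < η →
      ∃ M : Ideal (𝓞 K), Finite (𝓞 K ⧸ M) ∧
        (1 - η) * (Nat.card (Fin n → 𝓞 K ⧸ M) : ℝ) ≤
          (Nat.card {z : Fin n → 𝓞 K ⧸ M // ∀ y : Fin n → 𝓞 K, InClass y z → Good Ω y} : ℝ)) ∧
    ∀ B : ℕ → Finset (Fin n → 𝓞 K), Equidistributed B →
      ∃ Ω : ℕ → IntermediateField K (AlgebraicClosure K),
        (∀ t, FiniteDimensional K (Ω t)) ∧ (∀ x : AlgebraicClosure K, ∀ᶠ t in atTop, x ∈ Ω t) ∧
        AlmostAll B fun t y => Good (Ω t) y := by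
  refine ⟨fun B hB => ?_, fun L _ _ _ d τ hτ => exists_covers K L τ hτ, fun Ω hΩ η hη => ?_,
    fun B hB => ?_⟩
  · intro L _ _ _ d τ hτ
    obtain ⟨Ω, hΩ, hcov⟩ := exists_covers K L τ hτ
    have h := tendsto_good K hn Ω B hB
    refine tendsto_of_tendsto_of_tendsto_of_le_of_le h tendsto_const_nhds (fun t => ?_) fun t => ?_
    · have h0 : (0 : ℝ) < ((B t).card : ℝ) := by exact_mod_cast (hB.1 t).card_pos
      apply div_le_div_of_nonneg_right _ h0.le
      refine Nat.cast_le.2 (Finset.card_le_card fun y hy => ?_)
      rw [Finset.mem_filter] at hy ⊢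
      exact ⟨hy.1, hy.2 L d τ hτ hcov⟩
    · have h0 : (0 : ℝ) < ((B t).card : ℝ) := by exact_mod_cast (hB.1 t).card_pos
      show _ / _ ≤ (1 : ℝ)
      rw [div_le_one h0]
      exact_mod_cast Finset.card_filter_le _ _
  · obtain ⟨M, hM, h⟩ := dens_good K hn Ω η hη
    refine ⟨M, hM, ?_⟩
    have := hM
    have := Fintype.ofFinite (𝓞 K ⧸ M)
    have h1 : Nat.card (Fin n → 𝓞 K ⧸ M) = Nat.card (𝓞 K ⧸ M) ^ Fintype.card (Fin n) := by
      rw [Nat.card_eq_fintype_card, Nat.card_eq_fintype_card, Fintype.card_fun]
    rw [h1, Nat.cast_pow]
    refine h.trans ?_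
    rw [← Nat.card_coe_set_eq]
    exact le_refl _
  · haveI := countable_closure K
    obtain ⟨g, hg⟩ : ∃ g : ℕ → AlgebraicClosure K, Function.Surjective g := exists_surjective_nat _
    let E : ℕ → IntermediateField K (AlgebraicClosure K) := fun j =>
      IntermediateField.adjoin K (((Finset.range j).image g : Finset (AlgebraicClosure K)) :
        Set (AlgebraicClosure K))
    haveI hE : ∀ j, FiniteDimensional K (E j) := fun j =>
      IntermediateField.finiteDimensional_adjoin fun x _ => Algebra.IsIntegral.isIntegral x
    have hlim : ∀ j : ℕ, Tendsto (fun i => (((B i).filter (fun y => Good (E j) y)).card : ℝ) /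
          ((B i).card : ℝ)) atTop (𝓝 1) := fun j => tendsto_good K hn (E j) B hB
    obtain ⟨J, hJ, hJ'⟩ := Pool.Agent.N197.Htj.diag hlim (fun j i => by
      have h1 : (0 : ℝ) < ((B i).card : ℝ) := by exact_mod_cast (hB.1 i).card_pos
      rw [div_le_one h1]
      exact_mod_cast Finset.card_filter_le _ _)
    refine ⟨fun i => E (J i), fun i => hE _, fun x => ?_, hJ'⟩
    obtain ⟨m, rfl⟩ := hg x
    filter_upwards [hJ.eventually_gt_atTop m] with i hi
    exact IntermediateField.subset_adjoin _ _
      (Finset.mem_coe.2 (Finset.mem_image_of_mem g (Finset.mem_range.2 hi)))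

end Pool.Agent.Results.MP_938ce2_ag.CoversOfTheRoots
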