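import Pool.Agent.Run7.h411.Gen11

/-!
# Tate classes on the product of hyperkähler varieties with arbitrary varieties

Let `X_t`, `t ∈ T`, be finitely many projective hyperkähler varieties over a number field `K`, of any
deformation types, and let `T(X_t)` be the transcendental lattice of `X_t`: the orthogonal complement of
the Néron-Severi group in `H²(X_t, ℚ)`, of dimension `r_t ≥ 5`. Assume that the image of the Galois group
on the sum of the `T(X_t) ⊗ ℚ_ℓ` is as large as possible (its Lie algebra contains the sum of the
`so(T(X_t) ⊗ ℚ_ℓ)`). Let `Z_k`, `k ∈ κ`, be finitely many arbitrary smooth projective varieties over `K`,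
with the Betti numbers `n_k(b)`.

**Theorem.** There are sets `Bd(k, b) ⊆ T` of exceptional indices with
`∑_(t ∈ Bd(k, b)) r_t (r_t - 1) / 2 ≤ n_k(b)²` such that for all products `Y` of copies of the `X_t`, `t` not
exceptional (in particular for all powers of their product), and all products `Z` of copies of the
`Z_k` the Tate classes on `Y × Z` of codimension `j` are the combinations of the exterior products
`h × w`, where `h` is a class of codimension `i` on `Y` which is rational, a Hodge class and a Tate
class, and `w` is a Tate class of codimension `j - i` on `Z`.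

So the Tate conjecture for `Y × Z` follows from the one for `Z` and the algebraicity of Hodge classes on
`Y`; nothing is assumed about `Z` and about the Mumford-Tate or the Tate conjecture. There are no
exceptions if `n_k(b)² < r_t (r_t - 1) / 2` for all `k`, `b`, `t`.

Idea of the proof. By the theorem on the logarithms (`Run7.h457.MT`, with class field theory from
`Run7.h411.Cft`), for `σ` near `1` the logarithm of `σ` on `H^a(Y)` is the image of its logarithm on
`⊕ H²(X_t)` under the map given by the action of the Lie algebras `so(H²(X_t))` (Verbitsky,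
Looijenga-Lunts). Let `𝔥` be the Lie algebra of all pairs `(y, z)`, `y ∈ ∏ gso(H²(X_t))`,
`z ∈ ∏ gl(H^b(Z_k))`, which kill all Tate classes on all the products `Y × Z`. It contains the logarithms of the
elements of the Galois group near `1`, hence it projects onto the elements of `so(T(X_t))`. These are simple
Lie algebras as `r_t ≥ 5` (an elementary proof over any field of characteristic zero is in
`Run7.h411.Gen1`, `Gen2`), so by Goursat's lemma `𝔥` contains `so(T(X_t)) × 0` for all but the
exceptional `t`, as `∑ dim so(T(X_t)) ≤ dim gl(H^b(Z_k))` for the exceptional ones. So these Lie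
algebras kill the Tate classes. The classes on `Y` which are killed are spanned by rational classes;
these are Hodge classes, because the Hodge structure of `H^a(Y)` is given by elements of the
`so(T(X_t)) ⊗ ℂ`, and they are Tate classes by the theorem on the logarithms.
-/

set_option autoImplicit false

namespace Pool.Agent.Results.MP_938ce2_ag.HyperkaehlerTimesArbitrary

open Run7.h457.MT Run7.h411.Gen NumberField

/-- **Tate classes on the product of hyperkähler varieties with arbitrary varieties.** The Künneth
components of `H^(2 j)(Y × Z, ℚ_ℓ(j))` are `H^(2 i)(Y) ⊗ H^(2 c)(Z)(i + c)`, `i + c = j`, and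
`H^(2 i + 1)(Y) ⊗ H^(2 c + 1)(Z)(i + c + 1)`, `i + c + 1 = j`; there are no Tate classes in the latter. -/
theorem result {K : Type} [Field K] [NumberField K] {ℓ : ℕ} [Fact ℓ.Prime] {T : Type} [Fintype T]
    [DecidableEq T] (V : T → HK K ℓ) (P : ∀ t, Trans (V t)) (h5 : ∀ t, 5 ≤ (P t).r)
    (hopen : OpenImage V P) {κ : Type} [Fintype κ] [DecidableEq κ] (Z : κ → Coh K ℓ) :
    ∃ Bd : κ → ℕ → Finset T,
      (∀ k, ∀ b ≤ (Z k).e, ∑ t ∈ Bd k b, (P t).r * ((P t).r - 1) / 2 ≤ (Z k).n b ^ 2) ∧
      ∀ (S : Type) [Fintype S] [DecidableEq S] (τ : S → T),
        (∀ s k, ∀ b ≤ (Z k).e, τ s ∉ Bd k b) →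
        ∀ (S' : Type) [Fintype S'] [DecidableEq S'] (τ' : S' → κ) (i c : ℕ),
          (∀ x, TateVec (galYZ (fun s => Z (τ' s)) (fun s => V (τ s)) (2 * i) (2 * c)) (i + c) x ↔
            x ∈ Submodule.span ℚ_[ℓ]
              (crossProducts (fun s => Z (τ' s)) (fun s => V (τ s)) i c)) ∧
          ∀ x, TateVec (galYZ (fun s => Z (τ' s)) (fun s => V (τ s)) (2 * i + 1) (2 * c + 1))
            (i + c + 1) x → x = 0 :=
  tate_YZ Z h5 hopen

end Pool.Agent.Results.MP_938ce2_ag.HyperkaehlerTimesArbitrary
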