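import Pool.Agent.Run7.h877.TS.Conv2

/-!
# The square of an abelian variety decides the Tate conjecture for all powers

Let `X` be an abelian variety of dimension `g` over the algebraic closure `k` of a finitely
generated field `k₁` of characteristic zero, defined over `k₁`, such that no simple factor of `X` is
of type IV (`SelfAdjointCentre`: the centre of the endomorphism algebra is fixed by the Rosati
involution), and let `ℓ` be a prime number. The known theorems which are used are hypotheses:

* Hodge classes on the powers of `X` are Tate classes (Deligne),
* the representation of the Galois group on `H(X, ℚ_ℓ)` is semisimple (Faltings),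
* the Lie algebra of the `ℓ`-adic algebraic monodromy group is generated by its elements, with
  extended coefficients, which are idempotent on `H^1(X)` (`HodgeCocharactersGenerate`; this is a
  theorem of Pink: the group is generated by the Hodge cocharacters). It is used in the following
  weak form: a linear map of `H^1(X)` to itself which commutes with all these idempotents commutes
  with an open subgroup of the Galois group.

**Theorem.**

1. If the Tate classes of codimension `1` and `g` on `X × X` are `ℚ_ℓ`-linear combinations of Hodge
   classes, then all Tate classes, of any codimension, on all powers of `X` are `ℚ_ℓ`-linear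
   combinations of Hodge classes. (In codimension one the hypothesis is known, by Faltings. So for
   abelian varieties without factors of type IV the Mumford-Tate conjecture is a statement about
   the Tate classes in the middle cohomology `H^{2g}(X × X)`.)
2. If the Tate conjecture holds for `X × X`, then the Tate conjecture and the Hodge conjecture hold
   for all powers of `X`, in all codimensions. (The Hodge conjecture is stated for the images
   `1 ⊗ c` of the Hodge classes in the `ℓ`-adic cohomology; the map `c ↦ 1 ⊗ c` is injective.)

## Proof

Let `V = H^1(X)`, let `L` be the Lie algebra of the operators of `V` over `ℚ_ℓ` which kill all Tate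
forms, and let `D` be an operator which kills all Hodge forms; we want `D ∈ L`. By semisimplicity the
trace form of `V` is not degenerate on `L`. Let `D = l + b` with `l ∈ L` and `b` orthogonal to `L`. The
space `Λ^g V` is a semisimple representation of `L`, and every operator of `Λ^g V` which commutes with
`L` is, up to duality and `ℓ`-adic logarithms, a Tate class in `H^g(X) ⊗ H^g(X)`, so it commutes with
`D` and with `b`. By the density theorem `D` and `b` preserve all subspaces of `Λ^g V ⊗ Ω` which are
stable under `L`. Let `Φ = Z + c` be an idempotent of `V ⊗ Ω`, with `Z ∈ L ⊗ Ω`. Its image is
lagrangian, so its top exterior power is a line `t` in `Λ^g V ⊗ Ω`, the eigenline of the highest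
weight of `Z`. The operator `b` maps `t` into the space generated by `t` under `L`, and the
operators in this space which lower the weight by one are those of `L`: so `(1 - Φ) b Φ = (1 - Φ) m Φ`
for some `m ∈ L ⊗ Ω`, and similarly for `Φ b (1 - Φ)`. As `b` is orthogonal to `L` for the trace form,
these parts vanish, and `b` commutes with `Φ`. By the theorem of Pink `b` commutes with an open
subgroup of the Galois group. So `b` is a combination of endomorphisms of the Hodge structure, in
the centre, and kills the Hodge forms; as the centre is self-adjoint, `b = 0`. Hence `D ∈ L`.

The second part follows with the theorem on the Hodge side (`MP_802513_ag`, SquareTheorem, of the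
starting library): the Hodge classes on all powers of `X` are generated by those on `X × X`.
-/

universe u

namespace Pool.Agent.Results.MP_938ce2_ag.SquareDecides

open Pool.Agent.H914 Pool.Agent.H914.VarClass Pool.Agent.Y121.AHS Pool.Agent.N996.FP Run7.h226
  Run7.h877.SQ
open Pool.Agent.Y133.Half (pw)

variable {k : Type u} [Field k] {𝒱 : VarClass k} {ops : CycleOps 𝒱}

/-- **The square decides the Tate conjecture for all powers.** -/
theorem result (T : HodgeTheory ops) (X : 𝒱.Obj) (ψ : RForm T.W X)
    (hψ : IsPolarisation T X ψ) (hX : OfAbelianType T X) (hS : SelfAdjointCentre T X ψ)
    (E : PrimeNumber T) (Γ : Type) [Group Γ] [TopologicalSpace Γ]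
    [IsTopologicalGroup Γ] [CompactSpace Γ] (R : GaloisAction E X Γ)
    (hD : ∀ n j (a : E.H (pw X n)), IsHdg j a → IsTate R n j a)
    (hF : ContRep.Semisimple (R.r 0)) (hP : HodgeCocharactersGenerate R) :
    (TateIsHodgeIn R 1 1 → TateIsHodgeIn R 1 X.dim → ∀ n j, TateIsHodgeIn R n j) ∧
    ((∀ j, InSpan ℚ_[E.ℓ] (IsTate R 1 j) (IsAlgebraic j)) →
      (∀ n j, InSpan ℚ_[E.ℓ] (IsTate R n j) (IsAlgebraic j)) ∧
        ∀ n j (a : E.H (pw X n)), IsHdg j a → IsAlgebraic j a) :=
  final hψ hX hS hD hF hP

end Pool.Agent.Results.MP_938ce2_ag.SquareDecides
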