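import Pool.Agent.Run7.h293.SQ.G

/-!
# Motives of odd weight over `ℚ` with squarefree conductor

Let `V` be the `ℓ`-adic realization of a polarized pure motive of odd weight over `ℚ` (for instance a
part of the middle cohomology of a smooth projective variety of odd dimension over `ℚ`), with
the polarization `ω` (`SymplecticRep`). We suppose that the conductor of `V` is squarefree outside `ℓ`
(`SquarefreeConductor`): for every prime `p ≠ ℓ` the inertia group at `p` acts trivially, or fixes a hyperplane,
as for a reduction with one ordinary double point in odd dimension. There are two conditions at `ℓ`:

* `NothingUnramified`: there is no nonzero subrepresentation which is unramified outside `ℓ`. By the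
  theorem of Fontaine (Schémas propres et lisses sur `Z`) this holds for `ℓ = 7` if `V` has odd weight,
  good reduction at `7` and Hodge-Tate weights in `[0, 3]`: threefolds.
* `InertiaConnected`: finite sets of subspaces which are stable under the Galois group are fixed elementwise by
  the inertia at `ℓ`; this holds if `V` is crystalline or semistable at `ℓ`.

**Theorem 1.** `V` is semisimple: it is the orthogonal direct sum of at most `r` subrepresentations
`W i`, where `r` is the number of the bad primes, which are irreducible under all subgroups `H` of finite
index; the endomorphisms which commute with the elements `g` of `H` with `χ g = 1` are scalars on the `W i`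
(so the `W i` are absolutely irreducible and different), and the invariants of these `g` in the tensor powers
are annihilated by the Lie algebras of the full symplectic groups of all `W i`.

**Theorem 2.** If there is only one bad prime (prime conductor) `V` is indecomposable, and hence irreducible with
the full symplectic group as the monodromy group.

**Theorem 3.** (Tate conjecture.) Let `X` be a variety of odd dimension over `ℚ` whose transcendental
cohomology is of this kind and indecomposable, or has one bad prime, and `Z` a variety such that an element
of an inertia group outside `ℓ` acts nontrivially on the transcendental cohomology of `X` and trivially on the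
cohomology of `Z`. Then the Tate conjecture in all codimensions for the products `Y` of arbitrary
powers of `X` and `Z` is equivalent to the Tate conjecture for `Z`. So it is true for all powers of `X` (`Z` a
point) and, by iteration, for the products of arbitrary powers of several such `X`.

Here irreducibility is not assumed but proved, as is the semisimplicity. There is no condition on Hodge
numbers, on Frobenius elements, or on a family in which `X` moves.

The proof: the conjugates of the inertia groups outside `ℓ` act by transvections; let `D` be the set of their
directions. The orthogonal complement of `D` is unramified outside `ℓ`, so it is zero. The spans of the connected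
components of the graph `ω v w ≠ 0` on `D` are permuted by the Galois group; the inertia groups outside `ℓ`
fix them (`σ v` and `v` are both connected with the direction of `σ`), and those at `ℓ` by
assumption, and so the Galois group fixes them, by the theorem of Minkowski (library `Pool.Agent.W215`). The
inertia groups at the primes above `p` are conjugate, so each bad prime belongs to one component. The powers of the
transvections are in `H`.
-/

set_option autoImplicit false

universe u

namespace Pool.Agent.Results.MP_938ce2_ag.SquarefreeConductor

open Run7.h293.SQ Module Pool.Agent.W569.FM Pool.Agent.TH125.Gal Pool.Agent.H914

/-- **Motives of odd weight with squarefree conductor.** -/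
theorem result :
    -- 1. and 2.
    (∀ (ℓ : ℕ) (K Y : Type) [Field K] [CharZero K] [TopologicalSpace K] [T1Space K]
      [AddCommGroup Y] [Module K Y] [FiniteDimensional K Y] (V : SymplecticRep ℓ K Y)
      (S : Finset ℕ), SquarefreeConductor V S → NothingUnramified V → InertiaConnected V →
        (∃ m ≤ S.card, ∃ W : Fin m → Submodule K Y, Splitting V W) ∧
        (S.card ≤ 1 → Indecomposable V)) ∧
    -- 3. the Tate conjecture
    (∀ (k : Type u) [Field k] (𝒱 : VarClass k) (ops : CycleOps 𝒱) (W : WeilCohomology.{u, 0} ops)
      [TopologicalSpace W.K] [T1Space W.K] (ℓ : ℕ) (χ : GF ℚ →* W.Kˣ) (X Z : GVar W (GF ℚ)),
      SquarefreePair ℓ χ X Z → ∀ (n : ℕ) (Y : GVar W (GF ℚ)), IsPowProd X n Z Y →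
        (TateConjecture χ Y ↔ TateConjecture χ Z)) := by
  refine ⟨?_, ?_⟩
  · intro ℓ K Y _ _ _ _ _ _ _ V S hS hF hC
    exact ⟨splitting hS hF hC, indecomposable hS hF hC⟩
  · intro k _ 𝒱 ops W _ _ ℓ χ X Z h n Y hY
    exact tate_pair h hY

end Pool.Agent.Results.MP_938ce2_ag.SquarefreeConductor
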